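import Pool.Agent.Lib.MP_d44e50_ag.Sc

/-! Second variation of the curvature of a frame. -/

namespace Pool.Agent.Lib.MP_d44e50_ag

open Pool.Agent.Lib.MP_813db1_ag.HS Complex Matrix Filter Topology
open scoped ComplexOrder

set_option linter.unusedSectionVars false

noncomputable section

namespace Rg

variable {ι κ : Type} [Fintype ι] [DecidableEq ι] [Fintype κ] [DecidableEq κ]

/-- the curvature contracted with two matrices. -/
def rb (R : ι → ι → ι → ι → ℂ) : Mat ι →ₗ[ℂ] Mat ι →ₗ[ℂ] ℂ :=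
  LinearMap.mk₂ ℂ (fun A B => ∑ i, ∑ j, ∑ k, ∑ l, A j i * B l k * R i j k l)
    (fun _ _ _ => by simp only [Matrix.add_apply, add_mul, Finset.sum_add_distrib])
    (fun _ _ _ => by simp only [Matrix.smul_apply, smul_eq_mul, Finset.mul_sum, mul_assoc])
    (fun _ _ _ => by simp only [Matrix.add_apply, mul_add, add_mul, Finset.sum_add_distrib])
    (fun _ _ _ => by
      simp only [Matrix.smul_apply, smul_eq_mul, Finset.mul_sum]
      exact Sc.s4 fun _ _ _ _ => by ring)

theorem rb_apply (R : ι → ι → ι → ι → ℂ) (A B : Mat ι) :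
    rb R A B = ∑ i, ∑ j, ∑ k, ∑ l, A j i * B l k * R i j k l := rfl

/-- rank one matrices. -/
def vv (p q : V ι) : Mat ι := vecMulVec p (star q)

variable {R : ι → ι → ι → ι → ℂ} {G : Mat ι}

theorem rb_symm (h1 : ∀ i j k l, R i j k l = R k j i l) (h2 : ∀ i j k l, R i j k l = R i l k j)
    (A B : Mat ι) : rb R A B = rb R B A := by
  rw [rb_apply, rb_apply, Roy.sw13, Roy.sw24 fun i j k l => A j k * B l i * R k j i l]
  exact Sc.s4 fun i j k l => by rw [h1 k l i j, ← h2 i j k l]; ring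

theorem rb_vv (h2 : ∀ i j k l, R i j k l = R i l k j) (x u : V ι) :
    rb R (vv u x) (vv x u) = rb R (vv x x) (vv u u) := by
  rw [rb_apply, rb_apply, Roy.sw24]
  exact Sc.s4 fun i j k l => by
    simp only [vv, vecMulVec_apply]
    rw [← h2 i j k l]; ring

theorem vv_exp (x u : V ι) (α β : ℝ) (ω : ℂ) (hω : star ω * ω = 1) :
    vv ((α : ℂ) • x + ((β : ℂ) * ω) • u) ((α : ℂ) • x + ((β : ℂ) * ω) • u) =
      ((α : ℂ) ^ 2) • vv x x + ((β : ℂ) ^ 2) • vv u u +
        ((α : ℂ) * β) • (ω • vv u x + star ω • vv x u) := by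
  ext i j
  simp only [vv, vecMulVec_apply, Matrix.add_apply, Matrix.smul_apply, Pi.add_apply, Pi.smul_apply,
    Pi.star_apply, smul_eq_mul, star_add, star_mul', star_def, conj_ofReal] at hω ⊢
  linear_combination ((β : ℂ) ^ 2 * u i * starRingEnd ℂ (u j)) * hω

theorem sv (h1 : ∀ i j k l, R i j k l = R k j i l) (h2 : ∀ i j k l, R i j k l = R i l k j)
    (hG : G.PosDef) {c : ℝ} (hc : ∀ f : κ → V ι,
      (∀ a b, star (f a) ⬝ᵥ G *ᵥ f b = if a = b then 1 else 0) →
      c ≤ (rb R (∑ a, vv (f a) (f a)) (∑ a, vv (f a) (f a))).re) {f : κ → V ι}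
    (hf : ∀ a b, star (f a) ⬝ᵥ G *ᵥ f b = if a = b then 1 else 0)
    (h0 : (rb R (∑ a, vv (f a) (f a)) (∑ a, vv (f a) (f a))).re ≤ c) {u : V ι}
    (hu : ∀ a, star (f a) ⬝ᵥ G *ᵥ u = 0) :
    c * (star u ⬝ᵥ G *ᵥ u).re ≤
      (Fintype.card κ + 1) * (rb R (∑ a, vv (f a) (f a)) (vv u u)).re := by
  obtain ⟨n0, n1⟩ := Complex.nonneg_iff.1 (hG.posSemidef.dotProduct_mulVec_nonneg u)
  set n := (star u ⬝ᵥ G *ᵥ u).re with hn
  have eN : star u ⬝ᵥ G *ᵥ u = n := Complex.ext rfl n1.symm
  have hu' : ∀ a, star u ⬝ᵥ G *ᵥ f a = 0 := fun a => by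
    have := congrArg star (hu a)
    rwa [star_zero, star_dotProduct, star_star, star_mulVec, hG.1.eq, ← dotProduct_mulVec] at this
  set P := ∑ a, vv (f a) (f a) with hP
  have one : ∀ a, 0 ≤ (rb R P (vv u u)).re - n * (rb R P (vv (f a) (f a))).re +
      (rb R (vv (f a) (f a)) (vv u u)).re := fun a => by
    have k : ∀ β : ℝ, β ^ 2 * n ≤ 1 → ∀ ω : ℂ, star ω * ω = 1 →
        c ≤ (rb R (P + ((β : ℂ) ^ 2) • (vv u u - (n : ℂ) • vv (f a) (f a)) +
          ((√(1 - β ^ 2 * n) : ℝ) * β : ℂ) • (ω • vv u (f a) + star ω • vv (f a) u))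
          (P + ((β : ℂ) ^ 2) • (vv u u - (n : ℂ) • vv (f a) (f a)) +
          ((√(1 - β ^ 2 * n) : ℝ) * β : ℂ) • (ω • vv u (f a) + star ω • vv (f a) u))).re := by
      intro β hβ ω hω
      set α := √(1 - β ^ 2 * n)
      have hα : (α : ℂ) ^ 2 = 1 - β ^ 2 * n := by
        exact_mod_cast Real.sq_sqrt (sub_nonneg.2 hβ)
      have := hc (Function.update f a ((α : ℂ) • f a + ((β : ℂ) * ω) • u)) fun b b' => by
        by_cases e : b = a <;> by_cases e' : b' = a
        · subst e e'
          simp only [Function.update_self, star_add, star_smul, mulVec_add, mulVec_smul,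
            add_dotProduct, dotProduct_add, smul_dotProduct, dotProduct_smul, hf, hu, hu', eN,
            if_true, smul_eq_mul, star_mul', star_def, conj_ofReal] at hω ⊢
          linear_combination hα + (β : ℂ) ^ 2 * n * hω
        · subst e
          simp only [Function.update_self, Function.update_of_ne e', star_add, star_smul,
            add_dotProduct, smul_dotProduct, hf, hu', if_neg (Ne.symm e'), smul_zero, add_zero]
        · subst e'
          simp only [Function.update_self, Function.update_of_ne e, mulVec_add, mulVec_smul,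
            dotProduct_add, dotProduct_smul, hf, hu, if_neg e, smul_zero, add_zero]
        · rw [Function.update_of_ne e, Function.update_of_ne e', hf]
      have e : ∑ b, vv (Function.update f a ((α : ℂ) • f a + ((β : ℂ) * ω) • u) b)
          (Function.update f a ((α : ℂ) • f a + ((β : ℂ) * ω) • u) b) =
          P + ((β : ℂ) ^ 2) • (vv u u - (n : ℂ) • vv (f a) (f a)) +
          ((α : ℝ) * β : ℂ) • (ω • vv u (f a) + star ω • vv (f a) u) := by
        rw [hP, ← Finset.add_sum_erase _ _ (Finset.mem_univ a),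
          ← Finset.add_sum_erase _ (fun a => vv (f a) (f a)) (Finset.mem_univ a),
          Function.update_self, vv_exp _ _ _ _ _ hω, hα, Finset.sum_congr rfl fun b hb => by
            rw [Function.update_of_ne (Finset.ne_of_mem_erase hb)]]
        module
      rwa [e] at this
    have k2 : ∀ β : ℝ, β ^ 2 * n ≤ 1 → 0 ≤ β ^ 2 * (8 * ((rb R P (vv u u)).re -
        n * (rb R P (vv (f a) (f a))).re + (rb R (vv (f a) (f a)) (vv u u)).re) + β ^ 2 *
        (4 * (rb R (vv u u - (n : ℂ) • vv (f a) (f a)) (vv u u - (n : ℂ) • vv (f a) (f a))).re -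
          8 * n * (rb R (vv (f a) (f a)) (vv u u)).re)) := fun β hβ => by
      have a1 := k β hβ 1 (by simp)
      have a2 := k β hβ (-1) (by simp)
      have a3 := k β hβ I (by simp)
      have a4 := k β hβ (-I) (by simp)
      have hα : ((√(1 - β ^ 2 * n) : ℝ) : ℂ) ^ 2 = 1 - β ^ 2 * n := by
        exact_mod_cast Real.sq_sqrt (sub_nonneg.2 hβ)
      have pD : rb R P (vv u u - (n : ℂ) • vv (f a) (f a)) =
          rb R P (vv u u) - n * rb R P (vv (f a) (f a)) := by rw [map_sub, map_smul, smul_eq_mul]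
      generalize vv u u - (n : ℂ) • vv (f a) (f a) = D at *
      have s := add_le_add (add_le_add a1 a2) (add_le_add a3 a4)
      rw [← add_re, ← add_re, ← add_re] at s
      replace s := s.trans_eq (congrArg re (a₂ := (4 : ℝ) * rb R P P + (8 * β ^ 2 : ℝ) * rb R P D +
          (4 * β ^ 4 : ℝ) * rb R D D + (8 * β ^ 2 * (1 - β ^ 2 * n) : ℝ) *
            rb R (vv (f a) (f a)) (vv u u)) (by
        simp only [map_add, map_smul, LinearMap.add_apply, LinearMap.smul_apply, smul_eq_mul,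
          rb_symm h1 h2 D P, rb_symm h1 h2 (vv (f a) u) (vv u (f a)), rb_vv h2 (f a) u, star_neg,
          star_one, star_def, conj_I]
        push_cast
        linear_combination (8 * (β : ℂ) ^ 2 * rb R (vv (f a) (f a)) (vv u u)) * hα +
          (((√(1 - β ^ 2 * n) : ℝ) : ℂ) ^ 2 * β ^ 2 * (2 * rb R (vv u (f a)) (vv u (f a)) +
            2 * rb R (vv (f a) u) (vv (f a) u) - 4 * rb R (vv (f a) (f a)) (vv u u))) * I_mul_I))
      simp only [add_re, re_ofReal_mul, pD, sub_re] at s
      nlinarith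
    generalize (rb R P (vv u u)).re - n * (rb R P (vv (f a) (f a))).re +
      (rb R (vv (f a) (f a)) (vv u u)).re = A at k2 ⊢
    generalize 4 * (rb R (vv u u - (n : ℂ) • vv (f a) (f a))
      (vv u u - (n : ℂ) • vv (f a) (f a))).re - 8 * n * (rb R (vv (f a) (f a)) (vv u u)).re = B at k2
    have t : Tendsto (fun β : ℝ => 8 * A + β ^ 2 * B) (𝓝[>] 0) (𝓝 (8 * A + 0 ^ 2 * B)) :=
      (Continuous.tendsto (by fun_prop) 0).mono_left nhdsWithin_le_nhds
    have t2 : Tendsto (fun β : ℝ => β ^ 2 * n) (𝓝[>] 0) (𝓝 (0 ^ 2 * n)) :=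
      (Continuous.tendsto (by fun_prop) 0).mono_left nhdsWithin_le_nhds
    have := ge_of_tendsto t (by
      filter_upwards [t2.eventually_le_const (by norm_num : (0 : ℝ) ^ 2 * n < 1),
        self_mem_nhdsWithin] with β b1 b2
      exact nonneg_of_mul_nonneg_right (k2 β b1) (pow_pos b2 2))
    linarith
  have s := Finset.sum_nonneg fun a (_ : a ∈ Finset.univ) => one a
  simp only [Finset.sum_add_distrib, Finset.sum_sub_distrib, Finset.sum_const, Finset.card_univ,
    nsmul_eq_mul, ← Finset.mul_sum, ← re_sum, ← map_sum, ← LinearMap.sum_apply, ← hP] at s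
  have := hc f hf
  rw [← hP] at this
  nlinarith

/-- equality for the minimal frame controls the mixed curvature. -/
theorem mixed (ha : AlgS) (h1 : ∀ i j k l, R i j k l = R k j i l)
    (h2 : ∀ i j k l, R i j k l = R i l k j) (hG : G.PosDef) {c : ℝ}
    (hc : ∀ B : Matrix ι κ ℂ, (gm G B).det ≠ 0 → c ≤ (rb R (pj G B) (pj G B)).re)
    {B : Matrix ι κ ℂ} (hB : (gm G B).det ≠ 0) (h0 : (rb R (pj G B) (pj G B)).re ≤ c) :
    c * (Fintype.card ι - Fintype.card κ) ≤
      (Fintype.card κ + 1) * (rb R (pj G B) (G⁻¹ - pj G B)).re ∧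
    (trace ((G⁻¹ - pj G B) * G)).re = Fintype.card ι - Fintype.card κ := by
  obtain ⟨ξ, e1, e2, -⟩ := ha.frame ι κ G B hG hB
  obtain ⟨S, hS⟩ := Mat.fac (ha.pj_psd ι κ G B hG hB).2.1
  have u := hG.det_pos.ne'.isUnit
  have pf : ∀ {σ : Type} [Fintype σ] (η : Matrix ι σ ℂ),
      η * ηᴴ = ∑ a, vv (fun i => η i a) fun i => η i a := fun η => by
    ext i j
    simp only [Matrix.mul_apply, conjTranspose_apply, Matrix.sum_apply, vv, vecMulVec_apply,
      Pi.star_apply]
  have ip : ∀ {σ τ : Type} (η : Matrix ι σ ℂ) (ζ : Matrix ι τ ℂ) a b,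
      (ηᴴ * G * ζ) a b = star (fun i => η i a) ⬝ᵥ G *ᵥ fun i => ζ i b := fun η ζ a b => by
    rw [Matrix.mul_assoc]
    rfl
  have t : trace ((G⁻¹ - pj G B) * G) = Fintype.card ι - Fintype.card κ := by
    rw [Matrix.sub_mul, nonsing_inv_mul _ u, trace_sub, trace_one, e2, Matrix.mul_assoc,
      trace_mul_comm, e1, trace_one]
  refine ⟨?_, by rw [t]; simp⟩
  have z : ξᴴ * G * Sᴴ = 0 := by
    rw [← self_mul_conjTranspose_eq_zero, conjTranspose_mul, conjTranspose_mul,
      conjTranspose_conjTranspose, conjTranspose_conjTranspose, hG.1.eq, Matrix.mul_assoc,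
      ← Matrix.mul_assoc Sᴴ, ← hS, e2, Matrix.sub_mul, ← Matrix.mul_assoc G⁻¹,
      nonsing_inv_mul _ u, Matrix.one_mul, Matrix.mul_assoc ξ, ← Matrix.mul_assoc ξᴴ, e1,
      Matrix.mul_one, sub_self, Matrix.mul_zero]
  have k := fun b => sv h1 h2 hG (c := c) (f := fun a i => ξ i a) (u := fun i => Sᴴ i b)
    (fun f hf => by
      have q : ((Matrix.of f)ᵀ)ᴴ * G * (Matrix.of f)ᵀ = 1 := by
        ext a b
        rw [ip, one_apply]
        exact hf a b
      have q1 : gm G (G * (Matrix.of f)ᵀ) = 1 := by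
        rw [gm, conjTranspose_mul, hG.1.eq, mul_nonsing_inv_cancel_right _ _ u, ← Matrix.mul_assoc, q]
      have q2 : pj G (G * (Matrix.of f)ᵀ) = ∑ a, vv (f a) (f a) := by
        rw [pj, q1, inv_one, Matrix.mul_one, nonsing_inv_mul_cancel_left _ _ u, conjTranspose_mul,
          hG.1.eq, Matrix.mul_assoc, mul_nonsing_inv_cancel_right _ _ u, pf]
        rfl
      exact q2 ▸ hc _ (by rw [q1, det_one]; exact one_ne_zero))
    (fun a b => by rw [← ip, e1, one_apply]) (by rwa [← pf, ← e2])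
    (fun a => by rw [← ip, z]; rfl)
  have s := Finset.sum_le_sum fun b (_ : b ∈ Finset.univ) => k b
  simp only [← Finset.mul_sum, ← re_sum, ← map_sum, ← pf, ← e2, ← ip,
    conjTranspose_conjTranspose, ← hS] at s
  have t2 : ∑ b, (S * G * Sᴴ) b b = Fintype.card ι - Fintype.card κ := by
    rw [← t, hS, Matrix.mul_assoc Sᴴ, trace_mul_comm]
    rfl
  rw [t2] at s
  simpa using s

/-- equality for the full trace makes the metric Einstein at the point. -/
theorem einstein {G : V ι → Mat ι} {U : Set (V ι)} {z : V ι} (hU : IsOpen U) (hK : KOn G U)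
    (hz : z ∈ U) {c : ℝ}
    (h : ∀ v : V ι, c * (∑ i, ∑ j, G z i j * v i * star (v j)).re ^ 2 ≤ hsc G z v)
    (h0 : rq G z (G z)⁻¹ ≤ (Fintype.card ι * (Fintype.card ι + 1) / 2 : ℝ) * c) :
    ric G z = (((Fintype.card ι + 1) / 2 * c : ℝ) : ℂ) • G z := by
  have hs := kC.sym ι G U hU hK z hz
  have hH := (hK.2 z hz).1
  have u := (hK.2 z hz).det_pos.ne'.isUnit
  obtain ⟨r1, r2⟩ := roy ι (fun i j k l => -curv G z i j k l +
    ((c / 2 : ℝ) : ℂ) * (G z i j * G z k l + G z i l * G z k j)) _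
    (fun i j k l => by rw [(hs i j k l).1]; ring) (fun i j k l => by rw [(hs i j k l).2.1]; ring)
    (fun i j k l => by
      simp only [star_add, star_neg, star_mul', (hs i j k l).2.2, hH.apply]
      rw [star_def, conj_ofReal]
      ring) (fun v => by
      have i0 : (ipV (G z) v v).im = 0 := by
        have := hH.im_star_dotProduct_mulVec_self (star v)
        rwa [star_star, ← Mat.ip_eq] at this
      have : c * (ipV (G z) v v).re ^ 2 ≤ _ := h v
      rw [Sc.e2, add_re, neg_re, re_ofReal_mul, add_re, mul_re, i0]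
      rw [hsc] at this
      linarith) (hK.2 z hz).inv.posSemidef
  have r3 := r2 (le_antisymm r1 (by
    rw [Sc.e1, mul_nonsing_inv _ u, Matrix.mul_one, trace_one, add_re, neg_re, re_ofReal_mul]
    simp only [add_re, mul_re, natCast_re, natCast_im]
    rw [rq] at h0
    linarith))
  have r4 : ∀ i j k l, curv G z i j k l =
      ((c / 2 : ℝ) : ℂ) * (G z i j * G z k l + G z i l * G z k j) := fun i j k l => by
    have := r3 (Pi.single i 1 ᵥ* G z) (Pi.single j 1 ᵥ* G z) (Pi.single k 1 ᵥ* G z)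
      (Pi.single l 1 ᵥ* G z)
    simp only [vecMul_vecMul, mul_nonsing_inv _ u, vecMul_one, Pi.single_apply, apply_ite star,
      star_one, star_zero, mul_ite, mul_one, mul_zero, Finset.sum_ite_eq', Finset.mem_univ,
      if_true] at this
    linear_combination -this
  ext k l
  have a1 : ∑ i, ∑ j, (G z)⁻¹ j i * G z i j = Fintype.card ι := by
    rw [Finset.sum_comm, ← trace_one (R := ℂ), ← nonsing_inv_mul _ u]
    rfl
  have a2 : ∑ i, ∑ j, (G z)⁻¹ j i * (G z i l * G z k j) = G z k l := by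
    conv_rhs => rw [← Matrix.one_mul (G z), ← mul_nonsing_inv _ u]
    simp only [Matrix.mul_apply, Finset.sum_mul]
    exact Finset.sum_congr rfl fun _ _ => Finset.sum_congr rfl fun _ _ => by ring
  rw [kC.ric_eq ι G U hU hK z hz, Matrix.smul_apply, smul_eq_mul]
  have a3 : ∀ i j, (G z)⁻¹ j i * curv G z i j k l = ((c / 2 : ℝ) : ℂ) * G z k l *
      ((G z)⁻¹ j i * G z i j) + ((c / 2 : ℝ) : ℂ) * ((G z)⁻¹ j i * (G z i l * G z k j)) :=
    fun i j => by rw [r4]; ring
  simp only [a3, Finset.sum_add_distrib, ← Finset.mul_sum (a := ((c / 2 : ℝ) : ℂ)),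
    ← Finset.mul_sum (a := ((c / 2 : ℝ) : ℂ) * G z k l), a1, a2]
  push_cast
  ring

end Rg

end

end Pool.Agent.Lib.MP_d44e50_ag
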