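import Pool.Agent.Lib.MP_d44e50_ag.Rg.Alg
import Pool.Agent.Lib.MP_d44e50_ag.Qps
import Pool.Agent.Lib.MP_d44e50_ag.Alg

/-! The local identity, its equality case, and the lemma of Schur. -/

namespace Pool.Agent.Lib.MP_d44e50_ag

open Pool.Agent.Lib.MP_813db1_ag.HS Pool.Agent.Lib.MP_bbd4b9_ag.LC
open Pool.Agent.Lib.MP_813db1_ag.HS.Sub Complex Matrix Filter Topology Set
open scoped ContDiff ComplexOrder

set_option linter.unusedSectionVars false

noncomputable section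

namespace Rg

open Loc

variable {ι κ : Type} [Fintype ι] [DecidableEq ι] [Fintype κ] [DecidableEq κ]
  {G P : V ι → Mat ι} {U : Set (V ι)} {z : V ι} {Φ : V ι → V κ} {s : V κ → ℂ} {m : ℕ}
  {F : V ι → ℝ}

/-- the divergence of the horizontal gradient of the logarithm of the Gram determinant. -/
def bt (G : V ι → Mat ι) (Φ : V ι → V κ) (z : V ι) : ℂ :=
  qf ((G z)⁻¹ - pj (G z) (jr Φ z)) (fun i => dz (lgm G Φ) i z) (fun i => dz (lgm G Φ) i z) +
    ∑ i, ∑ j, pj (G z) (jr Φ z) j i * levi (lgm G Φ) z i j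

theorem tr_eq (A B : Mat ι) : trace (A * B) = ∑ i, ∑ j, A j i * B i j := by
  rw [Finset.sum_comm]
  rfl

theorem qf_kill {Q : Mat ι} (hQ : Q.IsHermitian) {a b : V ι} (t : ℝ) (hb : Q *ᵥ b = 0) :
    qf Q (b + (t : ℂ) • a) (b + (t : ℂ) • a) = (t : ℂ) ^ 2 * qf Q a a := by
  have : star b ⬝ᵥ Q *ᵥ a = 0 := by
    rw [dotProduct_mulVec, ← hQ.eq, ← star_mulVec, hb, star_zero, zero_dotProduct]
  simp only [Alg.qf_eq, mulVec_add, hb, zero_add, mulVec_smul, star_add, star_smul, add_dotProduct,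
    dotProduct_smul, smul_dotProduct, this, smul_eq_mul, star_def, conj_ofReal]
  ring

theorem qf_zero {Q : Mat ι} (hQ : Q.PosSemidef) {a : V ι} (h : (qf Q a a).re ≤ 0) :
    Q *ᵥ a = 0 := by
  rw [Alg.qf_eq] at h
  obtain ⟨n0, n1⟩ := Complex.nonneg_iff.1 (hQ.dotProduct_mulVec_nonneg a)
  exact (hQ.dotProduct_mulVec_zero_iff a).1 (Complex.ext (le_antisymm h n0) n1.symm)

variable (hU : IsOpen U) (hK : KOn G U) (hz : z ∈ U)

include hU hK hz

theorem schur {l : V ι → ℝ} (hn : 2 ≤ Fintype.card ι) (h : ∀ w ∈ U, ric G w = (l w : ℂ) • G w) :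
    ∀ᶠ w in 𝓝 z, l w = l z := by
  have cl := kC.ric_cl ι G U hU hK.1.1 hK.2
  have : Nontrivial ι := Fintype.one_lt_card_iff_nontrivial.1 hn
  have e : ∀ w ∈ U, ∀ i j, (fun w => ric G w i j) =ᶠ[𝓝 w] fun w => (l w : ℂ) * G w i j :=
    fun w hw i j => (hU.eventually_mem hw).mono fun v hv => by
      simp only [h v hv, Matrix.smul_apply, smul_eq_mul]
  have d : ∀ w ∈ U, DifferentiableAt ℝ (fun w => (l w : ℂ)) w := fun w hw => by
    obtain ⟨i⟩ : Nonempty ι := inferInstance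
    refine (((cl.1 w hw i i).mul ((hK.1.1 w hw i i).inv
      ((hK.2 w hw).diag_pos (i := i)).ne')).differentiableAt
      (by simp)).congr_of_eventuallyEq ((hU.eventually_mem hw).mono fun v hv => ?_)
    simp only [h v hv, Matrix.smul_apply, smul_eq_mul]
    exact (mul_inv_cancel_right₀ ((hK.2 v hv).diag_pos (i := i)).ne' _).symm
  have d0 : ∀ w ∈ U, ∀ k, dz (fun w => (l w : ℂ)) k w = 0 := fun w hw k => by
    obtain ⟨i, hi⟩ := exists_ne k
    have q : ∀ j, dz (fun w => (l w : ℂ)) k w * G w i j = dz (fun w => (l w : ℂ)) i w * G w k j :=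
      fun j => by
        have := cl.2.2 w hw i j k
        rw [dz_congr (e w hw i j), dz_congr (e w hw k j),
          dz_mul (d w hw) ((hK.1.1 w hw i j).differentiableAt (by simp)),
          dz_mul (d w hw) ((hK.1.1 w hw k j).differentiableAt (by simp)),
          hK.1.2.2 w hw i j k] at this
        exact add_right_cancel this
    have u := mul_nonsing_inv _ (hK.2 w hw).det_pos.ne'.isUnit
    have a1 := congrFun (congrFun u i) i
    have a2 := congrFun (congrFun u k) i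
    rw [Matrix.mul_apply, one_apply_eq] at a1
    rw [Matrix.mul_apply, one_apply_ne hi.symm] at a2
    rw [← mul_one (dz _ k w), ← a1, ← mul_zero (dz (fun w => (l w : ℂ)) i w), ← a2, Finset.mul_sum,
      Finset.mul_sum]
    exact Finset.sum_congr rfl fun j _ => by rw [← mul_assoc, q, mul_assoc]
  obtain ⟨r, r0, hr⟩ := Metric.isOpen_iff.1 hU z hz
  filter_upwards [Metric.ball_mem_nhds z r0] with w hw
  refine ofReal_injective (Metric.isOpen_ball.is_const_of_fderiv_eq_zero (𝕜 := ℝ)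
    (f := fun w => (l w : ℂ)) (convex_ball z r).isPreconnected
    (fun v hv => (d v (hr hv)).differentiableWithinAt) (fun v hv => ?_) hw (Metric.mem_ball_self r0))
  ext1 x
  simp [fderiv_eq_dz, dzb_ofReal, d0 v (hr hv)]

variable (ha : AlgS) (h : AnalyticAt ℂ Φ z) (h0 : (gm (G z) (jr Φ z)).det ≠ 0)

include ha h h0

theorem c1' {A : Mat ι} (hA : A.PosSemidef) : (rb (curv G z) (pj (G z) (jr Φ z)) A).re ≤
    (∑ i, ∑ j, A j i * levi (lgm G Φ) z i j).re := by
  obtain ⟨-, p2, -⟩ := ha.pj_psd _ _ _ _ (hK.2 z hz) h0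
  have g := gram hA.transpose p2 (ha.gm_pd _ _ _ _ (hK.2 z hz) h0).inv.posSemidef
    fun k => (cv G Φ k z)ᴴ
  rw [Finset.sum_comm] at g
  simp only [lev hK hz h ha hU h0, mul_add, Finset.sum_add_distrib, add_re]
  refine le_add_of_nonneg_of_le (g.trans_eq (congrArg re (Finset.sum_congr rfl fun i _ =>
    Finset.sum_congr rfl fun j _ => mul_comm _ _))) (le_of_eq (congrArg re ?_))
  simp only [rb_apply, trace, diag, Matrix.mul_apply, of_apply, Finset.mul_sum]
  rw [Roy.sw13 fun i j k l => _, Roy.sw24 fun i j k l => _]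
  exact Sc.s4 fun _ _ _ _ => by ring

variable (hs : AnalyticAt ℂ s (Φ z)) (s0 : s (Φ z) ≠ 0) (hP : ∀ᶠ w in 𝓝 z, P w = pj (G w) (jr Φ w) ∧
    F w = Real.log (‖s (Φ w)‖ ^ 2 * (gm (G w) (jr Φ w)).det.re ^ m))

include hs s0 hP

theorem dv_eq : dvP G P (fun w => (F w : ℂ)) z = ((G z).det.re : ℂ) * ((m : ℝ) * bt G Φ z) := by
  have c2F : ContDiffAt ℝ 2 (fun w => (F w : ℂ)) z := (contDiffAt_ofReal.2
    (loc ha ι κ G P U z Φ s m F hU hK hz h h0 hs s0 hP).2.1).of_le (by norm_cast)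
  obtain ⟨e1, v, hv⟩ := Qps.loc2 ha hU hK hz h h0 hs s0 (hP.mono fun _ q => q.2)
  obtain ⟨-, p2, p3⟩ := ha.pj_psd _ _ _ _ (hK.2 z hz) h0
  have dd : ∀ j i, DifferentiableAt ℝ (fun w => (G w).det * pj (G w) (jr Φ w) j i) z := fun j i =>
    (dG hK hz).det.mul (dP hK hz h h0 j i)
  have e2 : dvP G P (fun w => (F w : ℂ)) z = ∑ i, ∑ j,
      (dz (fun w => (G w).det * pj (G w) (jr Φ w) j i) i z * star (dz (fun w => (F w : ℂ)) j z) +
        (G z).det * (m * (pj (G z) (jr Φ z) j i * levi (lgm G Φ) z i j))) := by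
    refine Finset.sum_congr rfl fun i _ => ?_
    rw [dz_congr (g := fun w => ∑ j, (G w).det * pj (G w) (jr Φ w) j i *
        dzb (fun w => (F w : ℂ)) j w) (hP.mono fun w q => by
          simp only [q.1, Finset.mul_sum, mul_assoc]),
      dz_sum _ fun j _ => (dd j i).fun_mul (differentiableAt_dzb c2F j)]
    refine Finset.sum_congr rfl fun j _ => ?_
    rw [dz_mul (dd j i) (differentiableAt_dzb c2F j), dzb_ofReal, ← levi_apply, e1,
      Matrix.smul_apply, smul_eq_mul]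
    ring
  have e3 : ∑ j, (∑ i, ((G z)⁻¹ - pj (G z) (jr Φ z)) j i * dz (lgm G Φ) i z) *
      star ((jr Φ z *ᵥ v) j) = 0 := by
    have q : (jr Φ z)ᴴ * ((G z)⁻¹ - pj (G z) (jr Φ z)) = 0 := by
      rw [← p2.1.eq, ← conjTranspose_mul, Matrix.sub_mul, p3, sub_self, conjTranspose_zero]
    have := congrArg (fun A => star v ⬝ᵥ A *ᵥ fun i => dz (lgm G Φ) i z) q
    simp only [zero_mulVec, dotProduct_zero, ← mulVec_mulVec, dotProduct_mulVec (star v),
      ← star_mulVec] at this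
    rw [← this, dotProduct_comm]
    rfl
  rw [e2, ← (mat.det ι _ (hK.2 z hz)).2, bt]
  simp only [Finset.sum_add_distrib, ← Finset.mul_sum]
  rw [Finset.sum_comm]
  simp only [← Finset.sum_mul, c2 hK hz h ha hU h0, hv, star_add, mul_add, mul_assoc,
    Finset.sum_add_distrib, ← Finset.mul_sum, e3, qf, star_mul', star_natCast, ofReal_natCast]
  rw [Finset.sum_comm (f := fun i j => _ * (dz (lgm G Φ) i z * _))]
  simp only [Finset.sum_mul, Finset.mul_sum, mul_zero, zero_add]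
  congr 1
  exact Finset.sum_congr rfl fun _ _ => Finset.sum_congr rfl fun _ _ => by ring

theorem rig (hm : 1 ≤ m)
    (hQ : ∀ᶠ w in 𝓝 z, ((G w)⁻¹ - P w) *ᵥ (fun i => dz (fun w => (F w : ℂ)) i w) = 0) :
    (rb (curv G z) (pj (G z) (jr Φ z)) ((G z)⁻¹ - pj (G z) (jr Φ z))).re ≤ 0 := by
  have c2F : ContDiffAt ℝ 2 (fun w => (F w : ℂ)) z := (contDiffAt_ofReal.2
    (loc ha ι κ G P U z Φ s m F hU hK hz h h0 hs s0 hP).2.1).of_le (by norm_cast)
  obtain ⟨e1, v, hv⟩ := Qps.loc2 ha hU hK hz h h0 hs s0 (hP.mono fun _ q => q.2)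
  obtain ⟨-, p2, p3⟩ := ha.pj_psd _ _ _ _ (hK.2 z hz) h0
  have m0 : (m : ℂ) ≠ 0 := by exact_mod_cast (by omega : m ≠ 0)
  have d0 := Green.det_ne (hK.2 z hz)
  have e2 : dvP G P (fun w => (F w : ℂ)) z = (G z).det * (m * trace ((G z)⁻¹ * levi (lgm G Φ) z)) := by
    rw [← smul_eq_mul (m : ℂ), ← trace_smul, ← Matrix.mul_smul, ← e1, ← smul_eq_mul, ← trace_smul,
      ← Matrix.smul_mul, Matrix.inv_def, Ring.inverse_eq_inv', smul_smul, mul_inv_cancel₀ d0,
      one_smul, ← Green.div_adj kC hU hK.1 hz c2F]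
    refine Finset.sum_congr rfl fun i _ => dz_congr ?_ i
    filter_upwards [hQ, hP, ev hK hz h hU h0] with w w1 w2 w3
    have hh := (ha.pj_psd _ _ _ _ (hK.2 w w3.1) w3.2.2).2.1.1
    rw [← w2.1] at hh
    have q : ∑ j, ((G w)⁻¹ - P w) j i * dzb (fun w => (F w : ℂ)) j w = 0 := by
      have q := congrArg star (congrFun w1 i)
      rw [mulVec, dotProduct, star_sum, Pi.zero_apply, star_zero] at q
      exact (Finset.sum_congr rfl fun j _ => by rw [star_mul', hh.apply, dzb_ofReal]).trans q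
    simp only [Matrix.sub_apply, sub_mul, Finset.sum_sub_distrib, sub_eq_zero] at q
    rw [← q, Matrix.inv_def, Ring.inverse_eq_inv']
    simp only [mulVec, dotProduct, transpose_apply, Matrix.smul_apply, smul_eq_mul, mul_assoc,
      ← Finset.mul_sum, mul_inv_cancel_left₀ (Green.det_ne (hK.2 w w3.1))]
  have e3 : ((G z)⁻¹ - pj (G z) (jr Φ z)) *ᵥ (fun i => dz (lgm G Φ) i z) = 0 := by
    have q := hQ.self_of_nhds
    rw [hP.self_of_nhds.1, funext hv] at q
    change _ *ᵥ (jr Φ z *ᵥ v + (m : ℂ) • fun i => dz (lgm G Φ) i z) = 0 at q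
    rwa [mulVec_add, mulVec_mulVec, Matrix.sub_mul, p3, sub_self, zero_mulVec, zero_add,
      mulVec_smul, smul_eq_zero_iff_right m0] at q
  rw [dv_eq hU hK hz ha h h0 hs s0 hP, ← (mat.det ι _ (hK.2 z hz)).2, ofReal_natCast, bt,
    Alg.qf_eq, e3, dotProduct_zero, zero_add, tr_eq] at e2
  refine (c1' hU hK hz ha h h0 p2).trans_eq ?_
  simp only [Matrix.sub_apply, sub_mul, Finset.sum_sub_distrib,
    mul_left_cancel₀ m0 (mul_left_cancel₀ d0 e2), sub_self, zero_re]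

end Rg

end

end Pool.Agent.Lib.MP_d44e50_ag
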