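import Pool.Agent.Lib.MP_d44e50_ag.Up

/-! The upper bound for the integral of the divergence. -/

namespace Pool.Agent.Lib.MP_d44e50_ag

open Pool.Agent.Lib.MP_813db1_ag.HS MeasureTheory Complex Matrix Filter Topology Set
open scoped ContDiff ComplexOrder

namespace Rg

open Up

theorem upR (ha : AlgS) (hi : IbpS) {ι X : Type} [Fintype ι] [DecidableEq ι] [TopologicalSpace X]
    [T2Space X] [CompactSpace X] [MeasurableSpace X] [BorelSpace X] {M : Atl ι X} {g : X → Mat ι}
    {μ : Measure X} {Wr W : Set X} {r F c : X → ℝ} {P : Ch ι X → V ι → Mat ι} {C b C0 : ℝ}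
    (hg : M.IsK g) (hμ : M.IsVol g μ) (hr : RE M g Wr r C) (hW : IsOpen W) (hs : W ⊆ Wr)
    (h0 : μ Wᶜ = 0) (hP : Ten M W P) (hp : ∀ x ∈ W, (P (M.ch x) (M.ch x x)).PosSemidef ∧
      ((g x)⁻¹ - P (M.ch x) (M.ch x x)).PosSemidef) (hF : CkOn M 2 W F) (hc : Continuous c)
    (hD : DvGe M g W P F c) (hb : ∀ x ∈ W, F x + b * r x ≤ C0 + r x)
    (hcl : ∀ t, IsClosed {x | x ∈ W ∧ t ≤ F x + b * r x}) :
    4 * ∫ x, c x ∂μ ≤ 8 * b ^ 2 * C * ∫ x, trm (g x) (g x) ∂μ := by
  have hA := kA ι X M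
  have := ((kV ι X M g hg).2 μ hμ).fin
  have pd := ((hA.isK_iff g).1 hg).2
  have aW : ∀ᵐ x ∂μ, x ∈ W := h0
  have rW := Measure.restrict_eq_self_of_ae_mem aW
  have rW' := Measure.restrict_eq_self_of_ae_mem (aW.mono fun x q => hs q)
  have ig : ∀ f : X → ℝ, Continuous f → Integrable f μ := fun f q =>
    q.integrable_of_hasCompactSupport (HasCompactSupport.of_compactSpace _)
  have cτ : Continuous fun x => trm (g x) (g x) := hA.cont _ fun e he z hz =>
    (hA.ck_trm g g hg (fun e he => (hg e he).1.1) e he z hz).of_le zero_le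
  have r1 : CkOn M 1 W r := hr.ck.mono one_le_two hs
  have F1 : CkOn M 1 W F := hF.mono one_le_two subset_rfl
  have h2 := fun T (hT : 0 < T) => hi ι X M g μ W P F _ c _ _ hg hμ hW hP hF (F1.lin r1 b)
    hc.continuousOn hD (hcl _) (cut 2 hT).1 (fun _ => pp_nonneg _ _) (cut 2 hT).2.1
  simp only [IntegrableOn, rW] at h2
  have lim : Tendsto (fun T => ∫ x, pp 2 ((F x + b * r x) / T + 2) * c x ∂μ) atTop
      (𝓝 (∫ x, 4 * c x ∂μ)) := by
    refine tendsto_integral_filter_of_dominated_convergence (fun x => 9 * ‖c x‖)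
      ((eventually_gt_atTop 0).mono fun T hT => (h2 T hT).1.aestronglyMeasurable) ?_
      ((ig c hc).norm.const_mul 9) (.of_forall fun x => Tendsto.mul_const _ ?_)
    · filter_upwards [eventually_gt_atTop 0, eventually_ge_atTop (C0 + C)] with T hT hT'
      filter_upwards [aW] with x hx
      rw [norm_mul, Real.norm_of_nonneg (pp_nonneg _ _)]
      exact mul_le_mul_of_nonneg_right ((pp_le 2 hT (by linarith [hb x hx, hr.le x (hs hx)])
        zero_le_two).trans_eq (by norm_num)) (norm_nonneg _)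
    · have := ((continuous_pp 2).tendsto _).comp
        ((tendsto_const_nhds (x := F x + b * r x).div_atTop tendsto_id).add_const 2)
      rwa [pp_of_nonneg 2 (by norm_num), show ((0 : ℝ) + 2) ^ 2 = 4 by norm_num] at this
  rw [integral_const_mul] at lim
  refine le_of_tendsto lim ?_
  filter_upwards [eventually_gt_atTop 0, eventually_ge_atTop C0, eventually_ge_atTop C]
    with T hT hT0 hTC
  obtain ⟨i1, i2, i3⟩ := hi ι X M g μ Wr _ r r (fun x => -(C * trm (g x) (g x))) _ _ hg hμ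
    hr.opn (ten hg) hr.ck
    (hr.ck.mono one_le_two subset_rfl) (continuous_const.mul cτ).neg.continuousOn (dv hg hr)
    (hr.cl _) (cut 3 hT).1 (fun _ => pp_nonneg _ _) (cut 3 hT).2.1
  obtain ⟨-, j2, j3⟩ := h2 T hT
  simp only [IntegrableOn, rW', (cut 3 hT).2.2, (cut 2 hT).2.2] at i1 i2 i3 j2 j3
  have i4 : ∫ x, -(16 * C) * trm (g x) (g x) ∂μ ≤
      ∫ x, pp 2 (r x / T + 3) * -(C * trm (g x) (g x)) ∂μ := by
    refine integral_mono_ae ((ig _ cτ).const_mul _) i1 (aW.mono fun x hx => ?_)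
    have e1 := pp_le 2 hT ((hr.le x (hs hx)).trans hTC) (zero_le_three)
    have e2 := mul_nonneg hr.nn (mat.trm_nonneg ι _ _ (pd x) (pd x).posSemidef)
    nlinarith [mul_le_mul_of_nonneg_right e1 e2]
  rw [integral_const_mul] at i4
  have key : ∀ x ∈ W, 0 ≤
      2 * (pp 1 ((F x + b * r x) / T + 2) / T) * gp M P (fun x => F x + b * r x) F x +
        b ^ 2 / 2 * (2 * (pp 1 (r x / T + 3) / T) *
          gp M (fun e z => (M.repF g e z)⁻¹) r r x) := fun x hx => by
    have e0 := ha.qf_psd ι _ (M.dfn F x + (b : ℂ) • M.dfn r x) (hp x hx).1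
    have e1 := ha.qf_cs ι _ (M.dfn F x) (M.dfn r x) b (hp x hx).1
    have e2 := ha.qf_sub ι _ _ (M.dfn r x) (hp x hx).2
    have e3 := ha.qf_psd ι _ (M.dfn r x) (hp x hx).1
    have e4 : pp 1 ((F x + b * r x) / T + 2) / T ≤ pp 1 (r x / T + 3) / T := by
      refine div_le_div_of_nonneg_right (pp_mono 1 ?_) hT.le
      have := div_le_div_of_nonneg_right ((hb x hx).trans (add_le_add_left hT0 _)) hT.le
      rw [add_div T, div_self hT.ne'] at this
      linarith
    have e5 := div_nonneg (pp_nonneg 1 ((F x + b * r x) / T + 2)) hT.le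
    simp only [gp, dfn_lin F1 r1 b hx, hA.repF_self]
    nlinarith [mul_le_mul_of_nonneg_left e1 e5, mul_le_mul_of_nonneg_left
      (mul_le_mul e4 e2 e3 (e5.trans e4)) (sq_nonneg b), mul_nonneg e5 e0]
  have p := integral_nonneg_of_ae (μ := μ) (aW.mono key)
  rw [integral_add j2 (i2.const_mul _), integral_const_mul] at p
  nlinarith [mul_le_mul_of_nonneg_left (show ∫ x, 2 * (pp 1 (r x / T + 3) / T) *
    gp M (fun e z => (M.repF g e z)⁻¹) r r x ∂μ ≤ 16 * C * ∫ x, trm (g x) (g x) ∂μ by linarith)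
    (sq_nonneg b)]

end Rg

end Pool.Agent.Lib.MP_d44e50_ag
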