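import Pool.Agent.Lib.MP_d44e50_ag.Rg.Loc
import Pool.Agent.Lib.MP_d44e50_ag.Rg.Up
import Pool.Agent.Lib.MP_d44e50_ag.InvB
import Pool.Agent.Lib.MP_d44e50_ag.Ibp
import Pool.Agent.Lib.MP_d44e50_ag.Thin
import Pool.Agent.Lib.MP_d44e50_ag.Nls
import Pool.Agent.Lib.MP_d44e50_ag.Bas
import Pool.Agent.Lib.MP_813db1_ag.HS.Main

/-! Rigidity: a lower curvature bound with nonnegative integral which is not zero kills all twisted
pluricanonical sections of the image. -/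

namespace Pool.Agent.Lib.MP_d44e50_ag

open Pool.Agent.Lib.MP_813db1_ag.HS MeasureTheory Complex Matrix Filter Topology Set
open scoped ContDiff ComplexOrder Manifold

set_option linter.unusedSectionVars false

noncomputable section

namespace Rg

variable {ι κ X Y : Type} [Fintype ι] [DecidableEq ι] [Fintype κ] [DecidableEq κ]
  [TopologicalSpace X] [ChartedSpace (ι → ℂ) X] [TopologicalSpace Y] [ChartedSpace (κ → ℂ) Y]
  {N : ℕ} {D : Dat ι κ X Y N} {m a : ℕ} {s : Ch κ Y → V κ → ℂ} {c : X → ℝ}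

/-- the divergence on the manifold. -/
def beta (D : Dat ι κ X Y N) (x : X) : ℝ :=
  (bt (D.M.repF D.g (D.M.ch x)) (D.Φ (D.M.ch x) (D.cf x)) (D.M.ch x x)).re

/-- the vertical part of the inverse metric. -/
def Qt (D : Dat ι κ X Y N) (e : Ch ι X) (z : V ι) : Mat ι := (D.M.repF D.g e z)⁻¹ - D.P e z

variable (hb : D.Bas) (hs : IsSec D.ρ m a s) (hm : 1 ≤ m)

include hb hs hm

theorem data {x : X} (hx : x ∈ D.W m a s) : ∃ s' : V κ → ℂ,
    AnalyticAt ℂ (D.Φ (D.M.ch x) (D.cf x)) (D.M.ch x x) ∧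
    (gm (D.M.repF D.g (D.M.ch x) (D.M.ch x x))
      (jr (D.Φ (D.M.ch x) (D.cf x)) (D.M.ch x x))).det ≠ 0 ∧
    AnalyticAt ℂ s' (D.Φ (D.M.ch x) (D.cf x) (D.M.ch x x)) ∧
    s' (D.Φ (D.M.ch x) (D.cf x) (D.M.ch x x)) ≠ 0 ∧
    ∀ᶠ w in 𝓝 (D.M.ch x x), D.P (D.M.ch x) w =
      pj (D.M.repF D.g (D.M.ch x) w) (jr (D.Φ (D.M.ch x) (D.cf x)) w) ∧
      D.F m a s ((D.M.ch x).symm w) = Real.log (‖s' (D.Φ (D.M.ch x) (D.cf x) w)‖ ^ 2 *
        (gm (D.M.repF D.g (D.M.ch x) w) (jr (D.Φ (D.M.ch x) (D.cf x)) w)).det.re ^ m) := by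
  obtain ⟨h1, h2, h3⟩ := G12.loc hb hs (D.M.mem x) hx.1
  have h4 := h3.self_of_nhds.2
  rw [(D.M.ch x).left_inv (D.M.mem x)] at h4
  obtain ⟨n1, n2⟩ := G12.ne_of hm (h4 ▸ hx.2)
  exact ⟨_, h1, n2, h2, fun q => n1 (by rw [q, norm_zero]; norm_num),
    h3.mono fun w hw => ⟨hw.1, congrArg Real.log hw.2⟩⟩

theorem dvge (hc : ∀ x ∈ D.W m a s, c x ≤ beta D x) :
    DvGe D.M D.g (D.W m a s) D.P (D.F m a s) fun x => m * c x := fun x hx => by
  obtain ⟨s', h1, h2, h3, h4, h5⟩ := data hb hs hm hx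
  have := dv_eq (F := fun w => D.F m a s ((D.M.ch x).symm w)) (D.M.ch x).open_target (G12.kon x)
    ((D.M.ch x).map_source (D.M.mem x)) alg h1 h2 h3 h4 h5
  refine le_of_le_of_eq ?_ (congrArg re this).symm
  rw [re_ofReal_mul, re_ofReal_mul, RepA.repF_self]
  exact mul_le_mul_of_nonneg_left (mul_le_mul_of_nonneg_left (hc x hx) m.cast_nonneg)
    (Green.det_pos (G12.pd x)).le

theorem split {x : X} (hx : x ∈ D.W m a s) : (m : ℝ) ^ 2 * beta D x =
    m * (trace (D.P (D.M.ch x) (D.M.ch x x) * D.M.ddc (D.F m a s) x)).re +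
      gp D.M (Qt D) (D.F m a s) (D.F m a s) x ∧
    m * rq (D.M.repF D.g (D.M.ch x)) (D.M.ch x x) (D.P (D.M.ch x) (D.M.ch x x)) ≤
      (trace (D.P (D.M.ch x) (D.M.ch x x) * D.M.ddc (D.F m a s) x)).re ∧
    0 ≤ gp D.M (Qt D) (D.F m a s) (D.F m a s) x := by
  obtain ⟨s', h1, h2, -, -, h5⟩ := data hb hs hm hx
  obtain ⟨-, e, v, hv⟩ := Qps.chart alg hb hs hm (D.M.mem x) hx
  have hz := (D.M.ch x).map_source (D.M.mem x)
  obtain ⟨-, p2, p3⟩ := alg.pj_psd _ _ _ _ ((G12.kon (D := D) x).2 _ hz) h2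
  have k := Loc.c1 (G12.kon x) hz h1 alg (D.M.ch x).open_target h2
  have d : D.M.dfn (D.F m a s) x = jr (D.Φ (D.M.ch x) (D.cf x)) (D.M.ch x x) *ᵥ v +
      ((m : ℝ) : ℂ) • fun i => dz (Loc.lgm (D.M.repF D.g (D.M.ch x)) (D.Φ (D.M.ch x) (D.cf x))) i
        (D.M.ch x x) := funext hv
  rw [gp, Qt, Atl.ddc, e, h5.self_of_nhds.1, d, qf_kill p2.1 _ (by
      rw [mulVec_mulVec, Matrix.sub_mul, p3, sub_self, zero_mulVec]), Matrix.mul_smul, trace_smul,
    smul_eq_mul, tr_eq, ← ofReal_natCast, re_ofReal_mul, ← ofReal_pow, re_ofReal_mul, beta, bt,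
    add_re]
  exact ⟨by ring, mul_le_mul_of_nonneg_left k m.cast_nonneg,
    mul_nonneg (sq_nonneg _) (alg.qf_psd _ _ _ p2)⟩

variable (hc : ∀ x (B : Matrix ι κ ℂ), (gm (D.g x) B).det ≠ 0 →
    c x ≤ rq (D.M.repF D.g (D.M.ch x)) (D.M.ch x x) (pj (D.g x) B))

include hc

theorem tenQ : Ten D.M (D.W m a s) (Qt D) := by
  obtain ⟨-, -, t, -⟩ := g1 alg (loc alg) ι κ X Y N D m a s c hb hs hm hc
  have t' := Up.ten (W := D.W m a s) D.isK
  exact ⟨fun y x hx hy i j => (t'.sm y x hx hy i j).sub (t.sm y x hx hy i j), fun y x hx hy => by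
    rw [Qt, Matrix.mul_sub, Matrix.sub_mul, t'.tr y x hx hy, t.tr y x hx hy, Qt]⟩

theorem low {x : X} (hx : x ∈ D.W m a s) : (m : ℝ) ^ 2 * c x ≤ m ^ 2 *
    rq (D.M.repF D.g (D.M.ch x)) (D.M.ch x x) (D.P (D.M.ch x) (D.M.ch x x)) ∧
    m ^ 2 * rq (D.M.repF D.g (D.M.ch x)) (D.M.ch x x) (D.P (D.M.ch x) (D.M.ch x x)) +
      gp D.M (Qt D) (D.F m a s) (D.F m a s) x ≤ m ^ 2 * beta D x := by
  obtain ⟨e1, e2, -⟩ := split hb hs hm hx
  refine ⟨mul_le_mul_of_nonneg_left ?_ (sq_nonneg _), by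
    nlinarith [mul_le_mul_of_nonneg_left e2 m.cast_nonneg]⟩
  rw [G12.P_self hb hx.1]
  exact hc x _ (G12.ne_of hm hx.2).2

theorem le_beta {x : X} (hx : x ∈ D.W m a s) : c x ≤ beta D x := by
  obtain ⟨e1, e2⟩ := low hb hs hm hc hx
  exact le_of_mul_le_mul_left (by linarith [(split hb hs hm hx).2.2])
    (by positivity : (0 : ℝ) < m ^ 2)

theorem cont : ContinuousOn (beta D) (D.W m a s) := by
  obtain ⟨o, -, t, -, k, -⟩ := g1 alg (loc alg) ι κ X Y N D m a s c hb hs hm hc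
  have k1 := k.mono one_le_two subset_rfl
  refine ((((Inv.cont_tr o t fun x hx => Inv.cd_ddc o k (zero_add _).le hx
    (D.M.mem x)).const_mul (m : ℝ)).add
    (gpS ι X D.M _ _ _ _ o (tenQ hb hs hm hc) k1 k1).1).div_const ((m : ℝ) ^ 2)).congr
    fun x hx => ?_
  rw [eq_div_iff (by positivity), mul_comm]
  exact (split hb hs hm hx).1

open scoped MatrixOrder in
theorem rigid (h : ∀ x ∈ D.W m a s, beta D x ≤ c x) {x : X} (hx : x ∈ D.W m a s) :
    c x * (Fintype.card ι - Fintype.card κ) ≤ 0 ∧ (Fintype.card ι ≤ Fintype.card κ →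
      Fintype.card ι = Fintype.card κ ∧
      rq (D.M.repF D.g (D.M.ch x)) (D.M.ch x x) (D.g x)⁻¹ ≤ c x) := by
  obtain ⟨o, -, -, -, k, -⟩ := g1 alg (loc alg) ι κ X Y N D m a s c hb hs hm hc
  have k1 := k.mono one_le_two subset_rfl
  have m2 : (0 : ℝ) < m ^ 2 := by positivity
  have z : ∀ y ∈ D.W m a s, gp D.M (Qt D) (D.F m a s) (D.F m a s) y ≤ 0 := fun y hy => by
    obtain ⟨e1, e2⟩ := low hb hs hm hc hy
    linarith [mul_le_mul_of_nonneg_left (h y hy) m2.le]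
  have r : rq (D.M.repF D.g (D.M.ch x)) (D.M.ch x x) (D.P (D.M.ch x) (D.M.ch x x)) ≤ c x :=
    le_of_mul_le_mul_left (by linarith [mul_le_mul_of_nonneg_left (h x hx) m2.le,
      (low hb hs hm hc hx).2, (split hb hs hm hx).2.2]) m2
  obtain ⟨s', h1, h2, h3, h4, h5⟩ := data hb hs hm hx
  have hz := (D.M.ch x).map_source (D.M.mem x)
  have hK := G12.kon (D := D) x
  have q := rig (F := fun w => D.F m a s ((D.M.ch x).symm w)) (D.M.ch x).open_target hK hz alg
    h1 h2 h3 h4 h5 hm (by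
      filter_upwards [h5, Loc.ev hK hz h1 (D.M.ch x).open_target h2, ev_mem o hx (D.M.mem x)]
        with w w1 w2 w3
      have := z _ w3.2
      rw [(gpS ι X D.M _ _ _ _ o (tenQ hb hs hm hc) k1 k1).2 x _ w3.2
        ((D.M.ch x).map_target w3.1), (D.M.ch x).right_inv w3.1] at this
      exact qf_zero (w1.1 ▸ (alg.pj_psd _ _ _ _ (hK.2 w w2.1) w2.2.2).2.1) this)
  have sy := kC.sym ι _ _ (D.M.ch x).open_target hK _ hz
  rw [RepA.repF_self] at q h2
  rw [G12.P_self hb hx.1] at r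
  obtain ⟨a1, a2⟩ := mixed alg (fun i j k l => (sy i j k l).1) (fun i j k l => (sy i j k l).2.1)
    (G12.pd x) (hc x) h2 r
  refine ⟨a1.trans (mul_nonpos_of_nonneg_of_nonpos (by positivity) q), fun hn => ?_⟩
  have p := (alg.pj_psd _ _ _ _ (G12.pd (D := D) x) h2).2.1
  have p1 := Mat.trm_nonneg (G12.pd (D := D) x).inv p
  have p2 := Mat.le_trm (G12.pd (D := D) x).inv p
  rw [trm, nonsing_inv_nonsing_inv _ (G12.pd (D := D) x).det_pos.ne'.isUnit, a2] at p1 p2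
  have e : Fintype.card ι = Fintype.card κ := hn.antisymm (by exact_mod_cast sub_nonneg.1 p1)
  rw [e, sub_self, ofReal_zero, zero_smul, zero_sub] at p2
  exact ⟨e, sub_eq_zero.1 (le_antisymm (neg_nonneg.1 p2.nonneg) p.nonneg) ▸ r⟩

end Rg

open Rg in
theorem rigidity {ι κ X Y : Type} [Fintype ι] [DecidableEq ι] [Fintype κ] [DecidableEq κ]
    [TopologicalSpace X] [T2Space X] [CompactSpace X] [ConnectedSpace X] [MeasurableSpace X]
    [BorelSpace X] [ChartedSpace (ι → ℂ) X] [IsManifold 𝓘(ℂ, ι → ℂ) ω X]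
    [TopologicalSpace Y] [ConnectedSpace Y] [ChartedSpace (κ → ℂ) Y] [IsManifold 𝓘(ℂ, κ → ℂ) ω Y]
    (K : Kahler ι X) (μ : Measure X) (h : X → ℝ) {N : ℕ}
    (σ : OpenPartialHomeomorph X (ι → ℂ) → (ι → ℂ) → Fin N → ℂ)
    (ρ : OpenPartialHomeomorph Y (κ → ℂ) → (κ → ℂ) → Fin N → ℂ) (φ : X → Y)
    (hμ : K.IsVol μ) (hc : Continuous h) (hK : 2 ≤ Fintype.card ι ∧ HscGe K h ∨
      Fintype.card κ < Fintype.card ι ∧ ScalGe κ K h) (hk : 1 ≤ Fintype.card κ)
    (h0 : 0 ≤ ∫ x, h x ∂μ) (h1 : ∃ x, h x ≠ 0) (hσ : Lift σ) (hρ : Lift ρ)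
    (hρ0 : ∀ f ∈ atlas (κ → ℂ) Y, ∀ z ∈ f.target, ρ f z ≠ 0) (hφ : Mero σ ρ φ) (a : ℕ) :
    ∃ m0 : ℕ, ∀ m ≥ m0, ∀ s, IsSec ρ m a s → ∀ f ∈ atlas (κ → ℂ) Y, ∀ z ∈ f.target, s f z = 0 := by
  obtain ⟨M, g, hA, hch, hg, hrep⟩ := maxAtl kA ι X K
  have cA : ∀ x, M.ch x ∈ atlas (ι → ℂ) X := fun x => hch x ▸ chart_mem_atlas _ x
  have hev : ∀ x, M.repF g (M.ch x) =ᶠ[𝓝 (M.ch x x)] K.g (M.ch x) := fun x =>
    ((M.ch x).open_target.eventually_mem ((M.ch x).map_source (M.mem x))).mono (hrep _ (cA x))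
  have hμ' : M.IsVol g μ := by
    obtain ⟨⟨ν, hν⟩, hV⟩ := kV ι X M g hg
    refine (hV ν hν).uniq μ (fun x => ?_) ▸ hν
    rw [hν _ (M.ch_mem x), hμ _ (cA x)]
    congr 1
    refine withDensity_congr_ae ?_
    filter_upwards [ae_restrict_mem (M.ch x).open_target.measurableSet] with w hw
    rw [hrep _ (cA x) w hw]
  have := ((kV ι X M g hg).2 μ hμ').fin
  have := ((kV ι X M g hg).2 μ hμ').pos
  obtain ⟨x0, hx0, hs0⟩ := hφ.dom
  obtain ⟨j, hj⟩ := Function.ne_iff.1 hx0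
  let D : Dat ι κ X Y N := ⟨M, g, σ, ρ, φ, j, x0, cA, hg, hσ, hρ, hρ0,
    fun f hf f' hf' y hy hy' => CovJ.atl_an hf hf' hy hy', hφ, by rw [hch]; exact hj,
    by rw [hch]; exact hs0⟩
  have hB : D.Bas := bas alg ι κ X Y N D
  have gx : ∀ x, M.repF g (M.ch x) (M.ch x x) = g x := (kA ι X M).repF_self g
  obtain ⟨t, t0, c4, c5⟩ : ∃ t : ℝ, 0 < t ∧ (∀ x (B : Matrix ι κ ℂ), (gm (g x) B).det ≠ 0 →
      t * h x ≤ rq (M.repF g (M.ch x)) (M.ch x x) (pj (g x) B)) ∧
      (Fintype.card ι = Fintype.card κ → 2 ≤ Fintype.card ι ∧ ∀ x,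
        rq (M.repF g (M.ch x)) (M.ch x x) (g x)⁻¹ ≤ t * h x →
        M.ricF g x = (((Fintype.card ι + 1) / 2 * h x : ℝ) : ℂ) • g x) := by
    have k := fun x (B : Matrix ι κ ℂ) (hB : (gm (g x) B).det ≠ 0) => sc alg ι κ _ _ _ B (h x)
      (M.ch x).open_target (hg _ (M.ch_mem x)) ((M.ch x).map_source (M.mem x)) ((gx x).symm ▸ hB)
    rcases hK with ⟨hn, hK⟩ | ⟨hn, hK⟩
    · have k' : ∀ x (v : V ι), h x * (∑ i, ∑ j, M.repF g (M.ch x) (M.ch x x) i j * v i *
          star (v j)).re ^ 2 ≤ hsc (M.repF g (M.ch x)) (M.ch x x) v := fun x v => by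
        have := hK _ (cA x) x (M.mem x) v
        simp only [hsc, Main.curv_cg (hev x), (hev x).eq_of_nhds] at this ⊢
        exact this
      refine ⟨_, by positivity, fun x B hB => gx x ▸ (k x B hB).1 (k' x), fun e => ⟨hn, fun x q => ?_⟩⟩
      rw [← gx x, ← e] at q
      rw [← gx x]
      exact einstein (M.ch x).open_target (hg _ (M.ch_mem x)) ((M.ch x).map_source (M.mem x))
        (k' x) q
    · refine ⟨1, one_pos, fun x B hB => (one_mul _).trans_le (gx x ▸ (k x B hB).2 fun ξ q => ?_),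
        fun e => absurd e hn.ne'⟩
      simp only [Main.curv_cg (hev x), (hev x).eq_of_nhds] at q ⊢
      exact hK _ (cA x) x (M.mem x) ξ q
  obtain ⟨r, C, r1, r2⟩ := rT ι κ X Y N D hB
  have nul' := fun m (hm : 1 ≤ m) s (hs : IsSec ρ m a s) hn => g3 alg (nul thin) ι κ X Y N D μ m a
    s hB hμ' hs hm (idS ι κ X Y N D m a s hB hs hn)
  by_contra hne
  have key : ∀ c : X → ℝ, Continuous c → (∀ m ≥ 1, ∀ s, IsSec ρ m a s → ∀ x ∈ D.W m a s,
      c x ≤ beta D x) → ∫ x, c x ∂μ ≤ 0 := fun c c1 c2 => not_lt.1 fun p => hne (by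
    obtain ⟨n, hn⟩ := exists_nat_gt
      (8 * (a + 1 : ℝ) ^ 2 * C * (∫ x, trm (g x) (g x) ∂μ) / (4 * ∫ x, c x ∂μ))
    refine ⟨n + 1, fun m hm s hs f hf z hz => not_not.1 fun e => ?_⟩
    have m1 : 1 ≤ m := by omega
    obtain ⟨g1, g2', g3, g4, g5, -⟩ := g1 alg (loc alg) ι κ X Y N D m a s _ hB hs m1 c4
    obtain ⟨⟨C0, g7⟩, g8⟩ := g2 alg thin ι κ X Y N D m a s g r C hB hs m1 r1 r2 g2'
    have u := upR (c := fun x => m * c x) alg (ibp gpS) hg hμ' r2 g1 (fun _ q => q.1) (nul' m m1 s hs ⟨f, hf, z, hz, e⟩)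
      g3 g4 g5 (continuous_const.mul c1) (dvge hB hs m1 (c2 m m1 s hs)) g7 g8
    rw [integral_const_mul] at u
    have : (n : ℝ) ≤ m := by exact_mod_cast (by omega : n ≤ m)
    rw [div_lt_iff₀ (by positivity)] at hn
    nlinarith)
  have ig : ∀ f : X → ℝ, Continuous f → Integrable f μ := fun f q =>
    q.integrable_of_hasCompactSupport (HasCompactSupport.of_compactSpace _)
  have ps : ∀ f : X → ℝ, Continuous f → 0 ≤ f → ∀ x, f x ≠ 0 → 0 < ∫ x, f x ∂μ := fun f q p x e =>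
    q.integral_pos_of_hasCompactSupport_nonneg_nonzero (HasCompactSupport.of_compactSpace _) p e
  have i0 : ∫ x, h x ∂μ = 0 := by
    have := key (fun x => t * h x) (continuous_const.mul hc) fun m hm s hs x hx =>
      le_beta hB hs hm c4 hx
    rw [integral_const_mul] at this
    exact (nonpos_of_mul_nonpos_right this t0).antisymm h0
  obtain ⟨m, hm, s, hs, hn⟩ : ∃ m ≥ 1, ∃ s, IsSec ρ m a s ∧
      ∃ f ∈ atlas (κ → ℂ) Y, ∃ z ∈ f.target, s f z ≠ 0 := by
    by_contra q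
    exact hne ⟨1, fun m hm s hs f hf z hz => not_not.1 fun e => q ⟨m, hm, s, hs, f, hf, z, hz, e⟩⟩
  have dn : Dense (D.W m a s) := μ.dense_of_ae (p := fun x => x ∈ D.W m a s) (nul' m hm s hs hn)
  have op := (g1 alg (loc alg) ι κ X Y N D m a s _ hB hs hm c4).1
  have up : ∀ x ∈ D.W m a s, beta D x ≤ t * h x := fun x hx => not_lt.1 fun p => by
    obtain ⟨δ, d1, d2⟩ := exists_between (sub_pos.2 p)
    have o := ((cont hB hs hm c4).sub (continuous_const.mul hc (f := fun _ => t)).continuousOn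
      ).isOpen_inter_preimage op (isOpen_Ioi (a := δ))
    obtain ⟨χ, x1, x2, x3⟩ := exists_continuous_zero_one_of_isClosed o.isClosed_compl
      (isClosed_singleton (x := x)) (disjoint_singleton_right.2 fun q => q ⟨hx, d2⟩)
    have := key (fun y => t * h y + δ * χ y) (by fun_prop) fun m' hm' s' hs' y hy => by
      by_cases q : y ∈ D.W m a s ∧ δ < beta D y - t * h y
      · nlinarith [(x3 y).2, q.2]
      · rw [show χ y = 0 from x1 q, mul_zero, add_zero]
        exact le_beta hB hs' hm' c4 hy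
    rw [integral_add (ig _ (by fun_prop)) (ig _ (by fun_prop)), integral_const_mul,
      integral_const_mul, i0] at this
    nlinarith [mul_pos d1 (ps χ χ.continuous (fun y => (x3 y).1) x
      (by rw [show χ x = 1 from x2 rfl]; exact one_ne_zero))]
  obtain ⟨x1, hx1⟩ := h1
  have sg : (∀ x, h x ≤ 0) ∨ ∀ x, 0 ≤ h x := by
    rcases lt_or_ge (Fintype.card κ) (Fintype.card ι) with hn | hn
    · refine .inl fun x => closure_minimal (t := {x | h x ≤ 0}) (fun y hy => ?_)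
        (isClosed_le hc continuous_const) (dn x)
      exact nonpos_of_mul_nonpos_right (nonpos_of_mul_nonpos_left (rigid hB hs hm c4 up hy).1
        (sub_pos.2 (by exact_mod_cast hn))) t0
    · obtain ⟨y0, hy0⟩ := dn.nonempty
      obtain ⟨n2, c6⟩ := c5 ((rigid hB hs hm c4 up hy0).2 hn).1
      have lc : IsLocallyConstant fun x => (Fintype.card ι + 1 : ℝ) / 2 * h x := by
        refine (IsLocallyConstant.iff_eventually_eq _).2 fun y => ?_
        have hK := hg _ (M.ch_mem y)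
        have cl := kC.ric_cl ι _ _ (M.ch y).open_target hK.1.1 hK.2
        have := schur (M.ch y).open_target hK ((M.ch y).map_source (M.mem y))
          (l := fun w => (Fintype.card ι + 1 : ℝ) / 2 * h ((M.ch y).symm w)) n2 fun w hw => by
            obtain ⟨x, hx, rfl⟩ : ∃ x ∈ (M.ch y).source, M.ch y x = w :=
              ⟨_, (M.ch y).map_target hw, (M.ch y).right_inv hw⟩
            rw [(M.ch y).left_inv hx]
            ext i j
            refine tendsto_nhds_unique_of_frequently_eq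
              ((cl.1 _ hw i j).continuousAt.tendsto.comp ((M.ch y).continuousAt hx).tendsto)
              (((continuous_ofReal.comp (continuous_const.mul hc)).tendsto x).mul
                ((hK.1.1 _ hw i j).continuousAt.tendsto.comp ((M.ch y).continuousAt hx).tendsto))
              (((mem_closure_iff_frequently.1 (dn x)).and_eventually
                ((M.ch y).open_source.eventually_mem hx)).mono fun v hv => ?_)
            simp only [Function.comp, Pi.mul_apply]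
            rw [← (kB ι X M).ric_rep g hg _ (M.ch_mem y) _ ((M.ch y).map_source hv.2), Atl.repF,
              Atl.repF, (M.ch y).left_inv hv.2, c6 v ((rigid hB hs hm c4 up hv.1).2 hn).2, pull, pull,
              Matrix.mul_smul, Matrix.smul_mul]
            rfl
        filter_upwards [((M.ch y).continuousAt (M.mem y)).eventually this,
          (M.ch y).open_source.mem_nhds (M.mem y)] with x q1 q2
        rwa [(M.ch y).left_inv q2, (M.ch y).left_inv (M.mem y)] at q1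
      have e : ∀ x, h x = h x1 := fun x =>
        mul_left_cancel₀ (by positivity) (lc.apply_eq_of_preconnectedSpace x x1)
      simpa only [e, forall_const] using le_total (h x1) 0
  rcases sg with q | q
  · have := ps (fun x => -h x) hc.neg (fun x => neg_nonneg.2 (q x)) x1 (neg_ne_zero.2 hx1)
    rw [integral_neg, i0, neg_zero] at this
    exact this.false
  · exact (ps h hc q x1 hx1).ne' i0

end

end Pool.Agent.Lib.MP_d44e50_ag
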